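import Pool.Agent.H26.LA6

/-!
# Averages of the error over antidiagonal translations of the shifts

`E α β T` is the error in the asymptotic formula of Conrey, Farmer, Keating, Rubinstein and Snaith
for the shifted moment with the shifts `(α, β)`. For every `k` the error is small on average over
the translations `(α + x, β - x)`, even for weights concentrated on windows of length
`1 / ((2 - δ) log T)`.
-/

namespace Pool.Agent.Archive.MP_fa2474_nt.AntidiagonalAverage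

open MeasureTheory Pool.Agent.H26

theorem result (k : ℕ) {B δ ε : ℝ} (hB : 0 ≤ B) (hδ : 0 < δ) (hδ2 : δ ≤ 2) (hε : 0 < ε) :
    ∃ C : ℝ, ∀ α β : Fin k → ℝ, (∀ j, |α j| ≤ B) → (∀ j, |β j| ≤ B) →
      ∀ T : ℝ, 1 ≤ T → ∀ (M : ℝ) (w : ℂ → ℂ),
        DifferentiableOn ℂ w {z : ℂ | |z.im| < 1} →
        (∀ z : ℂ, -1 < z.im → z.im ≤ 0 →
          (1 + |z.re|) ^ (4 * k ^ 2 + 4 * k + 4) * ‖w z‖ ≤ M * T ^ ((2 - δ) * |z.im|)) →
        Integrable (fun x : ℝ => w x * E (fun j => α j + x) (fun j => β j - x) T) ∧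
        ‖∫ x : ℝ, w x * E (fun j => α j + x) (fun j => β j - x) T‖ ≤
          C * M * T ^ (1 - δ / 8 + ε) := by
  set ρ : ℝ := min (ε / 4) (1 / 64) with hρ
  set η : ℝ := min (ε / 2) (2 / 5) with hη
  have hρ0 : 0 < ρ := by positivity
  have hη0 : 0 < η := by positivity
  have hρ1 : ρ ≤ ε / 4 := min_le_left _ _
  have hη1 : η ≤ ε / 2 := min_le_left _ _
  have hη2 : η ≤ 2 / 5 := min_le_right _ _
  obtain ⟨C₁, hC₁0, hC₁⟩ := exists_avg k hρ0 (min_le_right _ _) hη0 hη2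
  obtain ⟨C, hCe⟩ : ∃ C : ℝ, C = C₁ * (1 + B) ^ NB k := ⟨_, rfl⟩
  have hC0 : 0 ≤ C := by rw [hCe]; positivity
  have hC := hC₁ B hB
  rw [← hCe] at hC
  refine ⟨2 * C, fun α β hα hβ T hT M w hw1 hw2 => ?_⟩
  have hT0 : 0 < T := by linarith
  have hM : 0 ≤ M := by
    have h := hw2 0 (by simp) (by simp)
    rw [Complex.zero_im, abs_zero, mul_zero, Real.rpow_zero, mul_one] at h
    exact le_trans (by positivity) h
  have hwt : ∀ Y : ℝ, Y < 1 → Wt (AK k) (M * T ^ ((2 - δ) * Y)) Y w := by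
    intro Y hY
    refine ⟨hw1.mono fun z hz => ?_, fun z hz1 hz2 => ?_⟩
    · exact abs_lt.2 ⟨hz.1, lt_trans hz.2 (by norm_num)⟩
    refine (hw2 z (by linarith) hz2).trans ?_
    refine mul_le_mul_of_nonneg_left ?_ hM
    apply Real.rpow_le_rpow_of_exponent_le hT
    rw [abs_of_nonpos hz2]
    exact mul_le_mul_of_nonneg_left (by linarith) (by linarith)
  have h := hC α β hα hβ w _ _ (hwt (1 / 8) (by norm_num)) (hwt (1 / 2 + η) (by linarith)) T hT
  refine ⟨h.1, h.2.trans ?_⟩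
  have h1 : T ^ ((2 - δ) * (1 / 2 + η)) ≤ T ^ (1 - δ / 8 + ε) := by
    apply Real.rpow_le_rpow_of_exponent_le hT
    have := mul_pos hδ hη0
    nlinarith
  have h2 : T ^ ((2 - δ) * (1 / 8)) * T ^ (3 / 4 + 4 * ρ) ≤ T ^ (1 - δ / 8 + ε) := by
    rw [← Real.rpow_add hT0]
    apply Real.rpow_le_rpow_of_exponent_le hT
    linarith
  calc C * (M * T ^ ((2 - δ) * (1 / 2 + η)) +
        M * T ^ ((2 - δ) * (1 / 8)) * T ^ (3 / 4 + 4 * ρ))
      = C * M * (T ^ ((2 - δ) * (1 / 2 + η)) +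
        T ^ ((2 - δ) * (1 / 8)) * T ^ (3 / 4 + 4 * ρ)) := by ring
    _ ≤ C * M * (T ^ (1 - δ / 8 + ε) + T ^ (1 - δ / 8 + ε)) := by gcongr
    _ = _ := by ring

end Pool.Agent.Archive.MP_fa2474_nt.AntidiagonalAverage
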