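import Pool.Agent.H26.RG.Force

/-!
# The main term of the shifted moments of the Riemann zeta function is forced

`E α β T` is the error in the asymptotic formula of Conrey, Farmer, Keating, Rubinstein and Snaith
for the shifted moment with the shifts `γ = (α, β)`. The main terms of their recipe are, up to
`O(T^ε)`, multiples of `T ^ (1 - i ⟨θ, γ⟩)`, where `⟨θ, γ⟩ = ∑ θ_j α_j - ∑ θ_l β_l` and `θ` runs
through the balanced vertices of the cube `[0,1]^(2k)`.

If for almost every shift the moment has, with a power saving, some expansion with finitely many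
main terms of this shape, with arbitrary real vectors `θ` outside the central polytope and with
arbitrary coefficients depending in an arbitrary way on the shift, then the recipe is right for
every shift, with the same exponent.

The central polytope consists of the `θ` in `[0,1]^(2k)` whose two blocks have the same sum and
whose `ℓ¹` distance from each balanced vertex is at least `2`. It contains no integral vector
(`intCast_notMem_central`).
-/

namespace Pool.Agent.Archive.MP_fa2474_nt.RecipeForced

open Complex Finset MeasureTheory Filter Asymptotics Pool.Agent.H26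

/-- The central polytope contains no integral vector. -/
theorem intCast_notMem_central {k : ℕ} (m : Fin k ⊕ Fin k → ℤ) :
    (fun i => (m i : ℝ)) ∉ central k := by
  classical
  rintro ⟨h1, h2, h3⟩
  have h01 : ∀ i, m i = 0 ∨ m i = 1 := by
    intro i
    have h6 : (0 : ℝ) ≤ (m i : ℝ) := (h1 i).1
    have h7 : (m i : ℝ) ≤ 1 := (h1 i).2
    have h4 : (0 : ℤ) ≤ m i := by exact_mod_cast h6
    have h5 : m i ≤ (1 : ℤ) := by exact_mod_cast h7
    omega
  set S : Finset (Fin k ⊕ Fin k) := univ.filter fun i =>
    Sum.elim (fun l => m (Sum.inl l) = 0) (fun j => m (Sum.inr j) = 1) i with hS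
  have hl : ∀ l : Fin k, Sum.inl l ∈ S ↔ m (Sum.inl l) = 0 := by
    intro l
    simp [hS]
  have hr : ∀ j : Fin k, Sum.inr j ∈ S ↔ m (Sum.inr j) = 1 := by
    intro j
    simp [hS]
  have hcor : corner S = fun i => (m i : ℝ) := by
    funext i
    rcases i with l | j
    · show (if Sum.inl l ∈ S then (0:ℝ) else 1) = _
      rcases h01 (Sum.inl l) with h | h
      · rw [if_pos ((hl l).2 h), h]
        simp
      · rw [if_neg (fun h' => by rw [(hl l).1 h'] at h; exact zero_ne_one h), h]
        simp
    · show (if Sum.inr j ∈ S then (1:ℝ) else 0) = _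
      rcases h01 (Sum.inr j) with h | h
      · rw [if_neg (fun h' => by rw [(hr j).1 h'] at h; exact one_ne_zero h), h]
        simp
      · rw [if_pos ((hr j).2 h), h]
        simp
  have hcard : (S.card : ℝ) = k := by
    have e1 : (S.card : ℝ) = ∑ i : Fin k ⊕ Fin k, if i ∈ S then (1:ℝ) else 0 := by
      simp
    rw [e1, Fintype.sum_sum_type]
    have e2 : ∀ l : Fin k, (if Sum.inl l ∈ S then (1:ℝ) else 0) = 1 - (m (Sum.inl l) : ℝ) := by
      intro l
      rcases h01 (Sum.inl l) with h | h
      · rw [if_pos ((hl l).2 h), h]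
        simp
      · rw [if_neg (fun h' => by rw [(hl l).1 h'] at h; exact zero_ne_one h), h]
        simp
    have e3 : ∀ j : Fin k, (if Sum.inr j ∈ S then (1:ℝ) else 0) = (m (Sum.inr j) : ℝ) := by
      intro j
      rcases h01 (Sum.inr j) with h | h
      · rw [if_neg (fun h' => by rw [(hr j).1 h'] at h; exact one_ne_zero h), h]
        simp
      · rw [if_pos ((hr j).2 h), h]
        simp
    rw [Finset.sum_congr rfl fun l _ => e2 l, Finset.sum_congr rfl fun j _ => e3 j,
      Finset.sum_sub_distrib, h2]
    simp
  have h4 := h3 S (by exact_mod_cast hcard)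
  rw [hcor] at h4
  simp at h4
  norm_num at h4

/-- Let `0 ≤ a < 1`. The recipe holds with exponent `a + ε` for all shifts and all `ε > 0` if and
only if, for every `ε > 0`, the moment has for almost every shift some expansion with finitely many
main terms and the error `O(T ^ (a + ε))`. -/
theorem result (k : ℕ) {a : ℝ} (ha0 : 0 ≤ a) (ha1 : a < 1) :
    (∀ (α β : Fin k → ℝ) (ε : ℝ), 0 < ε →
      (fun T : ℝ => E α β T) =O[atTop] fun T : ℝ => T ^ (a + ε)) ↔
    ∀ ε : ℝ, 0 < ε → ∃ Λ : Finset (Fin k ⊕ Fin k → ℝ), (∀ θ ∈ Λ, θ ∉ central k) ∧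
      ∀ᵐ γ : Fin k ⊕ Fin k → ℝ, ∃ c : (Fin k ⊕ Fin k → ℝ) → ℂ,
        (fun T : ℝ => (∫ t in (0 : ℝ)..T,
            Z (fun j => γ (Sum.inl j)) (fun j => γ (Sum.inr j)) t) -
          ∑ θ ∈ Λ, c θ * (T : ℂ) ^ (1 - I * pairing θ γ)) =O[atTop] fun T : ℝ => T ^ (a + ε) :=
  forced_iff k ha0 ha1

end Pool.Agent.Archive.MP_fa2474_nt.RecipeForced
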